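import Mathlib

set_option autoImplicit false
set_option maxSynthPendingDepth 3

namespace Pool.Agent.Results.MP_b5758b_co.Tie
open Finset

/-- number of nonnegative `k`-sums -/
noncomputable def s {n : ℕ} (k : ℕ) (x : Fin n → ℝ) : ℕ :=
  (((univ : Finset (Fin n)).powersetCard k).filter fun S => 0 ≤ ∑ i ∈ S, x i).card

/-- least threshold from which the Manickam-Miklos-Singhi bound holds -/
noncomputable def f (k : ℕ) : ℕ :=
  sInf {m : ℕ | ∀ n ≥ m, ∀ x : Fin n → ℝ, 0 ≤ ∑ i, x i → (n - 1).choose (k - 1) ≤ s k x}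

lemma two (n : ℕ) (hn : 6 ≤ n) (x : Fin n → ℝ) (hx : 0 ≤ ∑ i, x i) : n - 1 ≤ s 2 x := by
  classical
  obtain ⟨a, -, ha⟩ := exists_max_image univ x ⟨⟨0, by omega⟩, mem_univ _⟩
  have ha0 : 0 ≤ x a := by
    by_contra h
    have : ∑ i, x i < 0 := sum_neg (fun i hi => by linarith [ha i hi]) ⟨a, mem_univ _⟩
    linarith
  let P := univ.filter fun i => 0 ≤ x i
  let Z := univ.filter fun i => x i < 0 ∧ 0 ≤ x a + x i
  let J := univ.filter fun i => x a + x i < 0
  have split : ∀ g : Fin n → ℝ, ∑ i, g i = ∑ i ∈ P, g i + ∑ i ∈ Z, g i + ∑ i ∈ J, g i := by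
    intro g
    simp only [P, Z, J, sum_filter, ← sum_add_distrib]
    refine sum_congr rfl fun i _ => ?_
    by_cases h1 : 0 ≤ x i
    · rw [if_pos h1, if_neg (by intro h; linarith [h.1]), if_neg (by linarith)]; ring
    · by_cases h2 : 0 ≤ x a + x i
      · rw [if_neg h1, if_pos ⟨by linarith, h2⟩, if_neg (by linarith)]; ring
      · rw [if_neg h1, if_neg (fun h => h2 h.2), if_pos (by linarith)]; ring
  have hc : n = P.card + Z.card + J.card := by
    have := split fun _ => 1
    simp only [sum_const, card_univ, Fintype.card_fin, nsmul_eq_mul, mul_one] at this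
    exact_mod_cast this
  have aP : a ∈ P := by simp [P, ha0]
  have sJ : ∑ i ∈ J, x i ≤ J.card * (-x a) := by
    rw [← nsmul_eq_mul]
    exact sum_le_card_nsmul _ _ _ fun i hi => by
      simp only [J, mem_filter] at hi; linarith [hi.2]
  have sP : ∀ b ∈ P, ∑ i ∈ P, x i ≤ x b + (P.card - 1) * x a := by
    intro b hb
    rw [← add_sum_erase _ _ hb]
    have h1 := sum_le_card_nsmul (P.erase b) x (x a) fun i _ => ha i (mem_univ _)
    rw [nsmul_eq_mul, card_erase_of_mem hb, Nat.cast_sub (card_pos.mpr ⟨b, hb⟩)] at h1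
    simpa using h1
  have sZ0 : ∑ i ∈ Z, x i ≤ 0 := sum_nonpos fun i hi => by
    simp only [Z, mem_filter] at hi; linarith [hi.2.1]
  have sZ : ∀ z ∈ Z, ∑ i ∈ Z, x i ≤ x z := by
    intro z hz
    rw [← add_sum_erase _ _ hz]
    have : ∑ i ∈ Z.erase z, x i ≤ 0 := sum_nonpos fun i hi => by
      have := mem_of_mem_erase hi
      simp only [Z, mem_filter] at this; linarith [this.2.1]
    linarith
  have PZ : ∀ p ∈ P, ∀ z ∈ Z, p ≠ z := by
    intro p hp z hz e
    simp only [P, Z, mem_filter] at hp hz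
    rw [e] at hp; linarith [hp.2, hz.2.1]
  let T := ((univ : Finset (Fin n)).powersetCard 2).filter fun S => 0 ≤ ∑ i ∈ S, x i
  have pair : ∀ u v, u ≠ v → 0 ≤ x u + x v → ({u, v} : Finset (Fin n)) ∈ T := by
    intro u v h1 h2
    simp only [T, mem_filter, mem_powersetCard, subset_univ, true_and]
    exact ⟨card_pair h1, by rwa [sum_pair h1]⟩
  let U := P.powersetCard 2 ∪ Z.image fun z => ({a, z} : Finset (Fin n))
  have UT : U ⊆ T := by
    intro S hS
    rcases mem_union.mp hS with h | h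
    · rw [mem_powersetCard] at h
      simp only [T, mem_filter, mem_powersetCard, subset_univ, true_and]
      exact ⟨h.2, sum_nonneg fun i hi => by simpa [P] using h.1 hi⟩
    · obtain ⟨z, hz, rfl⟩ := mem_image.mp h
      refine pair _ _ (PZ a aP z hz) ?_
      simp only [Z, mem_filter] at hz
      exact hz.2.2
  have Uc : U.card = P.card.choose 2 + Z.card := by
    rw [card_union_of_disjoint, card_powersetCard, card_image_of_injOn]
    · intro z hz w hw e
      have : z ∈ ({a, w} : Finset (Fin n)) := by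
        have e' : ({a, z} : Finset (Fin n)) = {a, w} := e
        rw [← e']; simp
      rcases mem_insert.mp this with h | h
      · exact absurd h.symm (PZ a aP z hz)
      · simpa using h
    · rw [disjoint_right]
      intro S hS h
      obtain ⟨z, hz, rfl⟩ := mem_image.mp hS
      exact PZ z ((mem_powersetCard.mp h).1 (by simp)) z hz rfl
  have h1 : P.card.choose 2 + Z.card ≤ s 2 x := Uc ▸ card_le_card UT
  have hp1 : 1 ≤ P.card := card_pos.mpr ⟨a, aP⟩
  have hPJ : J.card < P.card := by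
    rcases J.eq_empty_or_nonempty with e | e
    · rw [e]; exact hp1
    · have b1 : ∑ i ∈ J, x i < ∑ _i ∈ J, -x a := sum_lt_sum_of_nonempty e fun i hi => by
        simp only [J, mem_filter] at hi; linarith [hi.2]
      rw [sum_const, nsmul_eq_mul] at b1
      have b2 := sP a aP
      rw [split x] at hx
      have b3 : (J.card : ℝ) * x a < P.card * x a := by linarith
      exact_mod_cast lt_of_mul_lt_mul_right b3 ha0
  by_cases hbig : P.card + J.card ≤ P.card.choose 2 + 1
  · omega
  have hs : P.card = J.card + 1 ∧ 2 ≤ P.card ∧ P.card ≤ 3 := by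
    rw [Nat.choose_two_right] at hbig
    generalize P.card = p at *
    by_cases h4 : 4 ≤ p
    · exfalso
      have : 4 * (p - 1) ≤ p * (p - 1) := Nat.mul_le_mul_right _ h4
      omega
    · interval_cases p <;> omega
  obtain ⟨z, hz⟩ : Z.Nonempty := card_pos.mp (by omega)
  obtain ⟨b, hb, hba⟩ : ∃ b ∈ P, b ≠ a := exists_mem_ne (by omega) a
  have hbz : 0 ≤ x b + x z := by
    have b2 := sP b hb
    have b3 := sZ z hz
    rw [split x] at hx
    rw [hs.1] at b2
    push_cast at b2
    linarith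
  have hnot : ({b, z} : Finset (Fin n)) ∉ U := by
    intro h
    rcases mem_union.mp h with h | h
    · exact PZ z ((mem_powersetCard.mp h).1 (by simp)) z hz rfl
    · obtain ⟨w, hw, e⟩ := mem_image.mp h
      have : a ∈ ({b, z} : Finset (Fin n)) := by rw [← e]; simp
      rcases mem_insert.mp this with h | h
      · exact hba h.symm
      · exact PZ a aP z hz (by simpa using h)
  have h2 : (insert {b, z} U).card ≤ s 2 x :=
    card_le_card (insert_subset (pair _ _ (PZ b hb z hz) hbz) UT)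
  rw [card_insert_of_notMem hnot, Uc] at h2
  have : P.card = 2 ∨ P.card = 3 := by omega
  rcases this with e | e <;> rw [e] at h2 <;> norm_num [Nat.choose] at h2 <;> omega

lemma s_int {n : ℕ} (k : ℕ) (y : Fin n → ℤ) : s k (fun i => (y i : ℝ)) =
    (((univ : Finset (Fin n)).powersetCard k).filter fun S => 0 ≤ ∑ i ∈ S, y i).card := by
  unfold s
  refine congrArg _ (filter_congr fun S _ => ?_)
  simp only
  exact_mod_cast Iff.rfl

theorem result : f 2 = 6 ∧ ∃ x : Fin 7 → ℝ, Antitone x ∧ 0 ≤ ∑ i, x i ∧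
    s 2 x = (7 - 1).choose (2 - 1) ∧ x 0 + x 6 < 0 := by
  have h6 : 6 ∈ {m : ℕ | ∀ n ≥ m, ∀ x : Fin n → ℝ, 0 ≤ ∑ i, x i →
      (n - 1).choose (2 - 1) ≤ s 2 x} := fun n hn x hx => by simpa using two n hn x hx
  refine ⟨le_antisymm (Nat.sInf_le h6) (le_csInf ⟨6, h6⟩ fun m hm => ?_),
    fun i => ((![3, 3, 3, 3, -4, -4, -4] : Fin 7 → ℤ) i : ℝ), fun i j hij => ?_, ?_, ?_, ?_⟩
  · by_contra h
    have := hm 5 (by omega) (fun i => ((![2, 2, 2, -3, -3] : Fin 5 → ℤ) i : ℝ))
      (by exact_mod_cast (by decide : (0 : ℤ) ≤ ∑ i, (![2, 2, 2, -3, -3] : Fin 5 → ℤ) i))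
    rw [s_int] at this
    revert this
    decide +kernel
  · have : ∀ i j : Fin 7, i ≤ j → (![3, 3, 3, 3, -4, -4, -4] : Fin 7 → ℤ) j ≤
        (![3, 3, 3, 3, -4, -4, -4] : Fin 7 → ℤ) i := by decide
    simp only
    exact_mod_cast this i j hij
  · simp only
    exact_mod_cast (by decide : (0 : ℤ) ≤ ∑ i, (![3, 3, 3, 3, -4, -4, -4] : Fin 7 → ℤ) i)
  · rw [s_int]
    decide +kernel
  · simp only
    exact_mod_cast (by decide : (![3, 3, 3, 3, -4, -4, -4] : Fin 7 → ℤ) 0 +
      (![3, 3, 3, 3, -4, -4, -4] : Fin 7 → ℤ) 6 < 0)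

end Pool.Agent.Results.MP_b5758b_co.Tie
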